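import Pool.Agent.P.MP_ac4909_gt.B.Final

namespace Pool.Agent.Results.MP_ac4909_gt.Smooth

open scoped Manifold ContDiff
open Pool.Agent.P.MP_ac4909_gt.B

/-- The Kauffman bracket skein module over `ℚ(A)` of a closed oriented smooth 3-manifold is not
zero. -/
theorem result (M : Type*) [TopologicalSpace M] [T2Space M] [CompactSpace M]
    [ChartedSpace E3 M] [IsManifold (𝓡 3) ∞ M] (hM : OrientedAtlas M) : Nontrivial (Skein M) :=
  nontrivial_Skein M hM

end Pool.Agent.Results.MP_ac4909_gt.Smooth
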